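import Pool.Agent.Work.MP_fa3ce5_an.H9.Final

/-!
# Factors of `T × T` containing a set with expansive sections

`T` is an invertible measure preserving map of a standard probability space with `T × T` ergodic,
`F` a factor of `T × T` which is independent of the first coordinate algebra, `E` a set of `F`
which is not almost everywhere of the form `X × B` (if `F` is also independent of the second
coordinate algebra, all sets of `F` with measure strictly between `0` and `1` are of this kind).

(1) If the sections of `E` are summably expansive (with constant `δ` and rates `ε n`), then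
`h(T) ≥ (δ - 2 (ε r + ε (r + 1) + ...)) log 2 / (r + 1)` for every `r`, so `h(T) > 0`. For sections
which are almost surely equal or at distance at least `δ` one can take `ε = 0` and `r = 0`, and
`h(T) ≥ δ log 2`.

(2) If `E` is almost everywhere a finite union of measurable rectangles, then `h(T) > 0`.
-/

set_option autoImplicit false
open MeasureTheory Set ProbabilityTheory
open Pool.Agent.Work.MP_fa3ce5_an.H9

namespace Pool.Agent.Results.MP_fa3ce5_an.ExpansiveSections

theorem result (α : Type) [mα : MeasurableSpace α] [StandardBorelSpace α]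
    (μ : Measure α) [IsProbabilityMeasure μ] (T : α ≃ᵐ α)
    (hT : MeasurePreserving (⇑T) μ μ)
    (hTT : @Ergodic _ Prod.instMeasurableSpace (Prod.map ⇑T ⇑T) (@Measure.prod _ _ _ _ μ μ))
    -- a factor of `T × T`, independent of the first coordinate algebra, and a set of this factor
    (F : MeasurableSpace (α × α))
    (hF : F ≤ (Prod.instMeasurableSpace : MeasurableSpace (α × α)))
    (hinv : ∀ s : Set (α × α), MeasurableSet[F] s → MeasurableSet[F] (Prod.map ⇑T ⇑T ⁻¹' s))
    (hind : @Indep (α × α) F (MeasurableSpace.comap Prod.fst mα) Prod.instMeasurableSpace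
      (@Measure.prod _ _ _ _ μ μ))
    (E : Set (α × α)) (hE : MeasurableSet[F] E)
    -- `E` is not of the form `X × B`, or `F` is also independent of the second coordinate algebra
    -- and `E` is not trivial
    (hnt : (¬ ∃ B : Set α, MeasurableSet B ∧
        (@Measure.prod _ _ _ _ μ μ) (symmDiff E (univ ×ˢ B)) = 0) ∨
      (@Indep (α × α) F (MeasurableSpace.comap Prod.snd mα) Prod.instMeasurableSpace
          (@Measure.prod _ _ _ _ μ μ) ∧
        0 < (@Measure.prod _ _ _ _ μ μ) E ∧ (@Measure.prod _ _ _ _ μ μ) E < 1)) :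
    -- (1) summably expansive sections
    (∀ (δ : ℝ) (ε : ℕ → ℝ), 0 < δ → (∀ n, 0 ≤ ε n) → Summable ε →
      (∀ᵐ z ∂(@Measure.prod _ _ _ _ μ μ), ∀ n : ℕ,
        (∀ j ≤ 2 * n, sectionDist μ E ((Prod.map ⇑T ⇑T)^[j] z) < δ) →
        sectionDist μ E ((Prod.map ⇑T ⇑T)^[n] z) ≤ ε n) →
      (∀ (r : ℕ) (c : ℝ), c < (δ - 2 * ∑' i, ε (i + r)) * Real.log 2 / (r + 1) →
        ∃ (k : ℕ) (f : α → Fin k), Measurable f ∧ ∀ n : ℕ,
          c * (n : ℝ) ≤ ∑ v : Fin n → Fin k,
            Real.negMulLog ((μ {x | ∀ i : Fin n, f ((⇑T)^[(i : ℕ)] x) = v i}).toReal)) ∧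
      (∃ (k : ℕ) (f : α → Fin k), Measurable f ∧ ∃ c : ℝ, 0 < c ∧ ∀ n : ℕ,
        c * (n : ℝ) ≤ ∑ v : Fin n → Fin k,
          Real.negMulLog ((μ {x | ∀ i : Fin n, f ((⇑T)^[(i : ℕ)] x) = v i}).toReal))) ∧
    -- (2) finite unions of rectangles
    ((∃ (m : ℕ) (A B : Fin m → Set α), (∀ i, MeasurableSet (A i)) ∧
        (∀ i, MeasurableSet (B i)) ∧
        (@Measure.prod _ _ _ _ μ μ) (symmDiff E (⋃ i, A i ×ˢ B i)) = 0) →
      ∃ (k : ℕ) (f : α → Fin k), Measurable f ∧ ∃ c : ℝ, 0 < c ∧ ∀ n : ℕ,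
        c * (n : ℝ) ≤ ∑ v : Fin n → Fin k,
          Real.negMulLog ((μ {x | ∀ i : Fin n, f ((⇑T)^[(i : ℕ)] x) = v i}).toReal)) := by
  have hlog : 0 < Real.log 2 := Real.log_pos (by norm_num)
  have hE' : @MeasurableSet (α × α) Prod.instMeasurableSpace E := hF _ hE
  have hnB : ¬ ∃ B : Set α, MeasurableSet B ∧
      (@Measure.prod _ _ _ _ μ μ) (symmDiff E (univ ×ˢ B)) = 0 := by
    rcases hnt with h | ⟨h, h0, h1⟩
    · exact h
    · exact not_snd F h E hE h0 h1
  constructor
  · intro δ ε hδ hε0 hε hexp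
    have h1 := main α μ T hT hTT F hF hinv hind E hE hnB δ ε hδ hε0 hε hexp
    refine ⟨h1, ?_⟩
    have h2 := tendsto_sum_nat_add ε
    have h3 := h2.eventually (gt_mem_nhds (show (0 : ℝ) < δ / 2 by positivity))
    obtain ⟨r, h4⟩ := h3.exists
    have h5 : 0 < (δ - 2 * ∑' i, ε (i + r)) * Real.log 2 / (r + 1) := by
      have : 0 < δ - 2 * ∑' i, ε (i + r) := by linarith
      positivity
    obtain ⟨k, f, hf, h⟩ := h1 r _ (half_lt_self h5)
    exact ⟨k, f, hf, _, half_pos h5, h⟩
  · rintro ⟨m, A, B, hA, hB, hAB⟩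
    obtain ⟨δ, hδ, hsep⟩ := sep_of_rect hA hB hE' hAB
    have h1 := main α μ T hT hTT F hF hinv hind E hE hnB δ (fun _ => 0) hδ (fun _ => le_rfl)
      summable_zero (expansive_of_sep hT hsep) 0 (δ * Real.log 2 / 2) (by
        simp only [tsum_zero, mul_zero, sub_zero, Nat.cast_zero, zero_add, div_one]
        have : 0 < δ * Real.log 2 := by positivity
        linarith)
    obtain ⟨k, f, hf, h⟩ := h1
    exact ⟨k, f, hf, _, by positivity, h⟩

end Pool.Agent.Results.MP_fa3ce5_an.ExpansiveSections
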