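import Pool.Agent.Work.MP_fa3ce5_an.Triv

/-!
# Independent factors of the square are mixing
-/

set_option autoImplicit false
open MeasureTheory ProbabilityTheory

namespace Pool.Agent.Results.MP_fa3ce5_an.MixingFactor

/-- Let `T × T` be ergodic and `F` a factor of `T × T` that is independent of both coordinate
algebras. Then `F` is mixing: for every set `t` of `F` and every measurable set `s` of the product,
the measure of `s ∩ (T × T)^(-n) t` tends to the product of the measures of `s` and `t`. -/
theorem result :
    ∀ (α : Type*) [MeasurableSpace α] (μ : Measure α) [IsProbabilityMeasure μ] (T : α ≃ᵐ α),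
      MeasurePreserving (⇑T) μ μ →
      Ergodic (Prod.map ⇑T ⇑T) (μ.prod μ) →
      ∀ F : MeasurableSpace (α × α),
        F ≤ (Prod.instMeasurableSpace : MeasurableSpace (α × α)) →
        (∀ s : Set (α × α), MeasurableSet[F] s ↔ MeasurableSet[F] (Prod.map ⇑T ⇑T ⁻¹' s)) →
        Indep F (MeasurableSpace.comap Prod.fst (inferInstance : MeasurableSpace α)) (μ.prod μ) →
        Indep F (MeasurableSpace.comap Prod.snd (inferInstance : MeasurableSpace α)) (μ.prod μ) →
        ∀ s t : Set (α × α), MeasurableSet[Prod.instMeasurableSpace] s → MeasurableSet[F] t →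
          Filter.Tendsto (fun n : ℕ => (μ.prod μ) (s ∩ (Prod.map ⇑T ⇑T)^[n] ⁻¹' t)) Filter.atTop
            (nhds ((μ.prod μ) s * (μ.prod μ) t)) := by
  intro α _ μ _ T hT hE F hF hFS hI₁ hI₂ s t hs ht
  exact Work.MP_fa3ce5_an.main_mixing α μ T hT hE F hF hFS hI₁ hI₂ s t hs ht

end Pool.Agent.Results.MP_fa3ce5_an.MixingFactor
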