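import Pool.Agent.Work.MP_fa3ce5_an.Triv

/-!
# The square of a partially rigid transformation has no independent factor
-/

set_option autoImplicit false
open MeasureTheory ProbabilityTheory

namespace Pool.Agent.Results.MP_fa3ce5_an.NoPartialRigidity

/-- Let `T × T` be ergodic and let `T` be partially rigid: for some `c > 0` and some times `m j`
tending to infinity, the lower limit of the measures of `A ∩ T^(-m j) A` is at least `c μ(A)` for
every measurable set `A`. Then every factor of `T × T` that is independent of both coordinate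
algebras is trivial. -/
theorem result :
    ∀ (α : Type*) [MeasurableSpace α] (μ : Measure α) [IsProbabilityMeasure μ] (T : α ≃ᵐ α),
      MeasurePreserving (⇑T) μ μ →
      Ergodic (Prod.map ⇑T ⇑T) (μ.prod μ) →
      (∃ c : ENNReal, 0 < c ∧ ∃ m : ℕ → ℕ, Filter.Tendsto m Filter.atTop Filter.atTop ∧
        ∀ A : Set α, MeasurableSet A →
          c * μ A ≤ Filter.liminf (fun j => μ (A ∩ (⇑T)^[m j] ⁻¹' A)) Filter.atTop) →
      ∀ F : MeasurableSpace (α × α),
        F ≤ (Prod.instMeasurableSpace : MeasurableSpace (α × α)) →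
        (∀ s : Set (α × α), MeasurableSet[F] s ↔ MeasurableSet[F] (Prod.map ⇑T ⇑T ⁻¹' s)) →
        Indep F (MeasurableSpace.comap Prod.fst (inferInstance : MeasurableSpace α)) (μ.prod μ) →
        Indep F (MeasurableSpace.comap Prod.snd (inferInstance : MeasurableSpace α)) (μ.prod μ) →
        ∀ t : Set (α × α), MeasurableSet[F] t → (μ.prod μ) t = 0 ∨ (μ.prod μ) t = 1 := by
  intro α _ μ _ T hT hE hR F hF hFS hI₁ hI₂ t ht
  exact Work.MP_fa3ce5_an.main_rigid α μ T hT hE hR F hF hFS hI₁ hI₂ t ht

end Pool.Agent.Results.MP_fa3ce5_an.NoPartialRigidity
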