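import Pool.Agent.Work.MP_fa3ce5_an.R2.Final

set_option autoImplicit false
open MeasureTheory ProbabilityTheory

namespace Pool.Agent.Results.MP_fa3ce5_an.RankTwo

/-- Let `T × T` be ergodic and `F` a factor of `T × T` that is independent of both coordinate
algebras. If `F` contains a nonconstant function of the form
`K(x, y) = f(x) + g(y) + a₁(x) b₁(y) + a₂(x) b₂(y)` with square integrable `f, g, aᵢ, bᵢ`, then
`h(T) > 0`: there are a finite measurable partition and `c > 0` such that all `n`-block entropies of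
the partition are at least `c n`. -/
theorem result :
    ∀ (α : Type) [MeasurableSpace α] [StandardBorelSpace α]
      (μ : Measure α) [IsProbabilityMeasure μ] (T : α ≃ᵐ α),
      MeasurePreserving (⇑T) μ μ →
      Ergodic (Prod.map ⇑T ⇑T) (μ.prod μ) →
      ∀ F : MeasurableSpace (α × α),
        F ≤ (Prod.instMeasurableSpace : MeasurableSpace (α × α)) →
        (∀ s : Set (α × α), MeasurableSet[F] s ↔ MeasurableSet[F] (Prod.map ⇑T ⇑T ⁻¹' s)) →
        Indep F (MeasurableSpace.comap Prod.fst (inferInstance : MeasurableSpace α)) (μ.prod μ) →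
        Indep F (MeasurableSpace.comap Prod.snd (inferInstance : MeasurableSpace α)) (μ.prod μ) →
        ∀ (K : α × α → ℝ) (f g a₁ a₂ b₁ b₂ : α → ℝ), Measurable[F] K →
          MemLp f 2 μ → MemLp g 2 μ → MemLp a₁ 2 μ → MemLp a₂ 2 μ → MemLp b₁ 2 μ →
          MemLp b₂ 2 μ →
          (∀ᵐ p ∂(μ.prod μ), K p = f p.1 + g p.2 + a₁ p.1 * b₁ p.2 + a₂ p.1 * b₂ p.2) →
          (¬ ∃ c : ℝ, ∀ᵐ p ∂(μ.prod μ), K p = c) →
          ∃ (k : ℕ) (φ : α → Fin k), Measurable φ ∧ ∃ c : ℝ, 0 < c ∧ ∀ n : ℕ,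
            c * (n : ℝ) ≤ ∑ v : Fin n → Fin k,
              Real.negMulLog ((μ {x | ∀ i : Fin n, φ ((⇑T)^[(i : ℕ)] x) = v i}).toReal) := by
  intro α _ _ μ _ T hT hErg F hF hinv hind1 hind2 K f g a₁ a₂ b₁ b₂ hK hf hg ha₁ ha₂ hb₁ hb₂
    hKe hKn
  exact Work.MP_fa3ce5_an.R2.final α μ T hT hErg F (fun s hs => hF s hs) hinv hind1 hind2
    K f g a₁ a₂ b₁ b₂ hK hf hg ha₁ ha₂ hb₁ hb₂ hKe hKn

end Pool.Agent.Results.MP_fa3ce5_an.RankTwo
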